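import Pool.Agent.Helper21.DN.Stmts

set_option autoImplicit false

namespace Pool.Agent.Helper21.DN

universe u

theorem dist_K {k K L : Type u} [Field k] [Field K] [Field L] [Algebra K L]
    [FiniteDimensional K L] (κ : k →+* K) (v : AddValuation L (WithTop ℤ)) (h : Ram κ v)
    (a : K) (ha : a ≠ 0) :
    ∃ z : ℤ, v (algebraMap K L a) = (((Module.finrank K L : ℤ) * z : ℤ) : WithTop ℤ) := by
  obtain ⟨vE, _, h2⟩ := h.sub ⊥
  have h3 := h2 (algebraMap K (⊥ : IntermediateField K L) a)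
  have h4 : (algebraMap K (⊥ : IntermediateField K L) a) ≠ 0 := by
    intro h5
    exact ha ((map_eq_zero _).1 h5)
  have h6 : vE (algebraMap K (⊥ : IntermediateField K L) a) ≠ ⊤ := by
    intro h5
    exact h4 ((AddValuation.top_iff vE).1 h5)
  obtain ⟨z, hz⟩ := WithTop.ne_top_iff_exists.1 h6
  refine ⟨z, ?_⟩
  have h7 : ((algebraMap K (⊥ : IntermediateField K L) a : (⊥ : IntermediateField K L)) : L) =
      algebraMap K L a := rfl
  rw [h7, IntermediateField.finrank_bot', ← hz] at h3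
  rw [h3]
  generalize Module.finrank K L = n
  induction n with
  | zero => simp
  | succ n ih =>
    rw [succ_nsmul, ih]
    have h8 : ((n + 1 : ℕ) : ℤ) * z = (n : ℤ) * z + z := by push_cast; ring
    rw [h8]
    rfl

theorem dist_ind {k K L : Type u} [Field k] [Field K] [Field L] [Algebra K L]
    [FiniteDimensional K L] (κ : k →+* K) (v : AddValuation L (WithTop ℤ)) (h : Ram κ v)
    (n : ℕ) (hn : n = Module.finrank K L) (b : Fin n → L)
    (hb : ∀ j, v (b j) = (((j : ℕ) : ℤ) : WithTop ℤ)) : LinearIndependent K b := by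
  classical
  rw [Fintype.linearIndependent_iff]
  intro a ha
  by_contra hne
  push Not at hne
  obtain ⟨i1, hi1⟩ := hne
  have hval : ∀ i, a i ≠ 0 → ∃ z : ℤ, v (a i • b i) = (((n : ℤ) * z + (i : ℕ) : ℤ) : WithTop ℤ) := by
    intro i hi
    obtain ⟨z, hz⟩ := dist_K κ v h (a i) hi
    refine ⟨z, ?_⟩
    rw [Algebra.smul_def, AddValuation.map_mul, hz, hb, ← hn]
    norm_cast
  obtain ⟨i0, -, hi0⟩ := Finset.exists_min_image (Finset.univ : Finset (Fin n))
    (fun i => v (a i • b i)) ⟨i1, Finset.mem_univ _⟩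
  have hne0 : v (a i0 • b i0) ≠ ⊤ := by
    intro htop
    have h1 := hi0 i1 (Finset.mem_univ _)
    rw [htop] at h1
    obtain ⟨z, hz⟩ := hval i1 hi1
    rw [hz] at h1
    exact absurd (top_le_iff.1 h1) (WithTop.coe_ne_top)
  have ha0 : a i0 ≠ 0 := by
    intro h1
    apply hne0
    rw [h1, zero_smul, AddValuation.map_zero]
  have hlt : v (a i0 • b i0) < v (∑ i ∈ Finset.univ.erase i0, a i • b i) := by
    apply AddValuation.map_lt_sum v hne0
    intro i hi
    have hii : i ≠ i0 := (Finset.mem_erase.1 hi).1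
    apply lt_of_le_of_ne (hi0 i (Finset.mem_univ _))
    intro heq
    by_cases hai : a i = 0
    · rw [hai, zero_smul, AddValuation.map_zero] at heq
      exact hne0 heq
    · obtain ⟨z, hz⟩ := hval i hai
      obtain ⟨z0, hz0⟩ := hval i0 ha0
      rw [hz, hz0] at heq
      have h2 : (n : ℤ) * z0 + (i0 : ℕ) = (n : ℤ) * z + (i : ℕ) := by exact_mod_cast heq
      apply hii
      apply Fin.ext
      have h3 : ((i0 : ℕ) : ℤ) % (n : ℤ) = ((i : ℕ) : ℤ) % (n : ℤ) := by
        have h4 := congrArg (fun t : ℤ => t % (n : ℤ)) h2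
        simpa [Int.add_emod, Int.mul_emod] using h4
      have h5 : ((i0 : ℕ) : ℤ) % (n : ℤ) = ((i0 : ℕ) : ℤ) :=
        Int.emod_eq_of_lt (by positivity) (by exact_mod_cast i0.2)
      have h6 : ((i : ℕ) : ℤ) % (n : ℤ) = ((i : ℕ) : ℤ) :=
        Int.emod_eq_of_lt (by positivity) (by exact_mod_cast i.2)
      rw [h5, h6] at h3
      exact_mod_cast h3.symm
  have hsum : a i0 • b i0 = - ∑ i ∈ Finset.univ.erase i0, a i • b i := by
    have h1 := Finset.add_sum_erase (Finset.univ : Finset (Fin n)) (fun i => a i • b i)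
      (Finset.mem_univ i0)
    simp only [ha] at h1
    exact eq_neg_of_add_eq_zero_left h1
  have h9 : v (a i0 • b i0) = v (∑ i ∈ Finset.univ.erase i0, a i • b i) := by
    rw [hsum, AddValuation.map_neg]
  exact absurd h9 (ne_of_lt hlt)

theorem dist_S1 {G : Type u} [Group G] [Fintype G] (g : G) (hg : ∀ σ : G, σ ∈ Subgroup.zpowers g)
    (n : ℕ) (hn : n = Fintype.card G) (f : G → ℕ) :
    ((S1 f : ℕ) : ℤ) = ∑ j ∈ Finset.Ico 1 n, (f (g ^ j) : ℤ) := by
  classical
  have hord : orderOf g = n := by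
    rw [hn, ← Nat.card_eq_fintype_card]
    exact orderOf_eq_card_of_forall_mem_zpowers hg
  unfold S1
  push_cast
  symm
  apply Finset.sum_bij (fun j _ => g ^ j)
  · intro j hj
    rw [Finset.mem_Ico] at hj
    rw [Finset.mem_filter]
    refine ⟨Finset.mem_univ _, ?_⟩
    intro h1
    have h2 := orderOf_dvd_of_pow_eq_one h1
    rw [hord] at h2
    have := Nat.le_of_dvd (by omega) h2
    omega
  · intro i hi j hj hij
    rw [Finset.mem_Ico] at hi hj
    exact pow_injOn_Iio_orderOf (by simp; omega) (by simp; omega) hij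
  · intro σ hσ
    rw [Finset.mem_filter] at hσ
    have h1 := (mem_zpowers_iff_mem_range_orderOf (x := g) (y := σ)).1 (hg σ)
    rw [Finset.mem_image] at h1
    obtain ⟨m, hm, hm2⟩ := h1
    rw [Finset.mem_range, hord] at hm
    refine ⟨m, ?_, hm2⟩
    rw [Finset.mem_Ico]
    refine ⟨?_, hm⟩
    by_contra h3
    have h4 : m = 0 := by omega
    rw [h4, pow_zero] at hm2
    exact hσ.2 hm2.symm
  · intro j hj
    rfl

theorem st_DIST (hXM : ST_XM.{u}) (hEUL : ST_EUL.{u}) (hDETI : ST_DETI.{u})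
    (hDETT : ST_DETT.{u}) : ST_DIST.{u} := by
  intro p _ k K L _ _ _ _ _ _ _ κ v hR hP g hg n hn i j hi1 hin hj1 hjn hdvd
  classical
  obtain ⟨x, hx0, hxv, hxg⟩ := hXM p k K L κ v hR hP g
  obtain ⟨θ, hθ1, hθv⟩ := hEUL p k K L κ v hR hP
  have : CharP K p := charP_of_injective_ringHom κ.injective p
  have hcard : Nat.card (L ≃ₐ[K] L) = n := by
    rw [hn]; exact IsGalois.card_aut_eq_finrank K L
  obtain ⟨N, hN⟩ := (IsPGroup.iff_card (p := p) (G := (L ≃ₐ[K] L))).1 hP
  have hnN : n = p ^ N := by rw [← hcard]; exact hN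
  have hn0 : 0 < n := by omega
  have hord : orderOf g = n := by
    rw [← hcard]
    exact orderOf_eq_card_of_forall_mem_zpowers hg
  have hgj : ∀ m : ℕ, 1 ≤ m → m < n → g ^ m ≠ 1 := by
    intro m hm1 hm2 h1
    have h2 := orderOf_dvd_of_pow_eq_one h1
    rw [hord] at h2
    have := Nat.le_of_dvd (by omega) h2
    omega
  let b : Fin n → L := fun j => x j
  have hbv : ∀ j : Fin n, v (b j) = (((j : ℕ) : ℤ) : WithTop ℤ) := fun j => hxv j
  have hbi : LinearIndependent K b := dist_ind κ v hR n hn b hbv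
  let B : Module.Basis (Fin n) K L := basisOfLinearIndependentOfCardEqFinrank' b hbi (by simp [hn])
  have hB : ∀ i, B i = b i := by
    intro i
    simp [B]
  let c : Fin n → L := fun j => if j = ⟨0, hn0⟩ then θ else g (x j) - x j
  let m : Fin n → ℤ := fun j => if j = ⟨0, hn0⟩ then
    (-(S1 (fun σ : L ≃ₐ[K] L => s v σ) : ℤ)) else ((j : ℕ) : ℤ) + s v (⇑(g ^ (j : ℕ)))
  have hne0 : ∀ j : Fin n, j ≠ ⟨0, hn0⟩ → 1 ≤ (j : ℕ) := by
    intro j hj
    by_contra h1
    apply hj
    apply Fin.ext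
    simp
    omega
  have hcv : ∀ j, v (c j) = (m j : WithTop ℤ) := by
    intro j
    by_cases hj : j = ⟨0, hn0⟩
    · simp only [c, m, if_pos hj]
      exact hθv
    · simp only [c, m, if_neg hj]
      exact hxg j (hgj j (hne0 j hj) j.2)
  let A : Matrix (Fin n) (Fin n) K := fun i j => B.repr (c j) i
  have hA : ∀ j, c j = ∑ i, A i j • b i := by
    intro j
    have h1 := B.sum_repr (c j)
    simp only [hB] at h1
    exact h1.symm
  have hdet : A.det = 1 ∨ A.det = -1 := by
    apply hDETT p K L n N hn hnN g hg hn0 θ hθ1 b hbi hx0 A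
    · have h1 := hA ⟨0, hn0⟩
      simpa [c] using h1
    · intro j hj
      have h1 := hA j
      simp only [c, if_neg hj] at h1
      exact h1
  have hdetv : v (algebraMap K L A.det) = 0 := by
    rcases hdet with h1 | h1
    · rw [h1, map_one, AddValuation.map_one]
    · rw [h1, map_neg, map_one, AddValuation.map_neg, AddValuation.map_one]
  have hsum : ∑ j, m j = ∑ j : Fin n, ((j : ℕ) : ℤ) := by
    have hfc : n = Fintype.card (L ≃ₐ[K] L) := by rw [← hcard, Nat.card_eq_fintype_card]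
    have h1 := dist_S1 g hg n hfc (fun σ : L ≃ₐ[K] L => s v σ)
    have h2 : ∀ F : ℕ → ℤ, ∑ j : Fin n, F j = F 0 + ∑ j ∈ Finset.Ico 1 n, F j := by
      intro F
      rw [Fin.sum_univ_eq_sum_range F n, Finset.range_eq_Ico,
        Finset.sum_eq_sum_Ico_succ_bot hn0]
    have h3 : ∑ j, m j = ∑ j : Fin n, (fun t : ℕ => if t = 0 then
        (-(S1 (fun σ : L ≃ₐ[K] L => s v σ) : ℤ)) else (t : ℤ) + s v (⇑(g ^ t))) (j : ℕ) := by
      apply Finset.sum_congr rfl
      intro j _
      by_cases hj : j = ⟨0, hn0⟩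
      · subst hj
        simp [m]
      · have h4 : (j : ℕ) ≠ 0 := by have := hne0 j hj; omega
        simp only [m, if_neg hj, if_neg h4]
    rw [h3, h2 (fun t : ℕ => if t = 0 then
        (-(S1 (fun σ : L ≃ₐ[K] L => s v σ) : ℤ)) else (t : ℤ) + s v (⇑(g ^ t))),
      h2 (fun t : ℕ => (t : ℤ))]
    simp only [if_true]
    have h5 : ∑ t ∈ Finset.Ico 1 n, (if t = 0 then
        (-(S1 (fun σ : L ≃ₐ[K] L => s v σ) : ℤ)) else (t : ℤ) + s v (⇑(g ^ t))) =
        ∑ t ∈ Finset.Ico 1 n, ((t : ℤ) + s v (⇑(g ^ t))) := by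
      apply Finset.sum_congr rfl
      intro t ht
      rw [Finset.mem_Ico] at ht
      rw [if_neg (by omega)]
    rw [h5, Finset.sum_add_distrib, h1]
    push_cast
    ring
  have hfin := hDETI k K L κ v hR n hn b c m hbv hcv A hA hdetv hsum ⟨i, hin⟩ ⟨j, hjn⟩
  have hi' : (⟨i, hin⟩ : Fin n) ≠ ⟨0, hn0⟩ := by
    intro h1
    have := congrArg Fin.val h1
    simp at this
    omega
  have hj' : (⟨j, hjn⟩ : Fin n) ≠ ⟨0, hn0⟩ := by
    intro h1
    have := congrArg Fin.val h1
    simp at this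
    omega
  have h7 : (⟨i, hin⟩ : Fin n) = ⟨j, hjn⟩ := by
    apply hfin
    simp only [m, if_neg hi', if_neg hj']
    exact hdvd
  exact congrArg Fin.val h7

end Pool.Agent.Helper21.DN
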